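import Pool.Agent.Q179.NF.Additive

/-!
# MP_ea2cf4_gt, Q1: answer NO

In `X = ∏_{n ≥ 2} ℤ/n` the closed Haar-null set `{x | ∀ n, x n ≠ 0}` is not covered by
countably many Borel null-finite sets.  Definitions: `Pool.Agent.Q179.NF.Additive`.
-/

open Set Filter Topology MeasureTheory

namespace Pool.Agent.Results.MP_ea2cf4_gt.ClosedHaarNull

open Pool.Agent.Q179.NF

/-- **Negative answer to Q1.**  There are an abelian Polish group `X` and a closed Haar-null set
`F ⊆ X` not covered by countably many Borel null-finite sets. -/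
theorem result : ∃ (X : Type) (_ : AddCommGroup X) (_ : TopologicalSpace X)
    (_ : IsTopologicalAddGroup X) (_ : PolishSpace X) (_ : MeasurableSpace X)
    (_ : BorelSpace X) (F : Set X), IsClosed F ∧ HaarNull F ∧
      ∀ B : ℕ → Set X, (∀ k, MeasurableSet (B k) ∧ NullFinite (B k)) → ¬ F ⊆ ⋃ k, B k := by
  refine ⟨XZ, inferInstance, inferInstance, inferInstance, inferInstance, inferInstance,
    inferInstance, AZ, isClosed_AZ, haarNull_AZ, ?_⟩
  intro B hB
  refine not_covered B (fun j => ?_) fun j => (hB j).2
  have h : (MeasurableSpace.pi : MeasurableSpace XZ) = borel XZ := BorelSpace.measurable_eq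
  rw [← h]
  exact (hB j).1

end Pool.Agent.Results.MP_ea2cf4_gt.ClosedHaarNull
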